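import Pool.Agent.helper3.DP.SpecG2
import Pool.Agent.helper3.DP.GXL
import Pool.Agent.helper96.DP.Basic

/-!
# Module G3Q: separation at the inner side, for two arms
-/

namespace DP

open MeasureTheory

theorem G3Q_prof : Profile (fun _ => (0 : ℝ)) := fun _ => ⟨le_rfl, zero_le_one⟩

theorem G3Q_Q (hB : Bzero_stmt) {F : Set (V → Bool)} {A : Set V} (hF : Loc F A) :
    Q (fun _ => (0 : ℝ)) F F = Pr F := by
  rw [hB (fun _ => (0 : ℝ)) F F A hF hF (fun _ _ => rfl), Set.inter_self]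

theorem G3Q_ok (x : V) (m r : ℕ) (hr : r ≤ m) : (Dfree false x m).ok false x r := by
  simp only [Dat.ok, Dfree, if_neg (Bool.false_ne_true)]
  refine ⟨fun i v hv => ?_, fun k v hv => ?_, m, fun k v hv => hv⟩
  · have : sd x v = m := hv
    show r ≤ sd x v
    omega
  · have : m < sd x v := hv
    show r ≤ sd x v
    omega

theorem G3Q_locStd (x : V) (n m : ℕ) :
    Loc (Ev fun c => Std c 2 false x n (Dfree false x m)) Set.univ := by
  have h : ∀ k, ∃ M, {v | M < sd x v} ⊆ (Dfree false x m).N k := fun k => ⟨m, fun v hv => hv⟩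
  have h1 := (GXL 2 false x n (Dfree false x m) (zpt x n) (n / 64) (n / 8) true (Or.inr (h true))).1
  have h2 := (GXL 2 false x n (Dfree false x m) (zpt x n) (n / 64) (n / 8) false (Or.inr (h false))).1
  have h3 : (Ev fun c => Std c 2 false x n (Dfree false x m)) =
      (Ev fun c => MrkC c 2 false x n (Dfree false x m) (zpt x n) (n / 64) (n / 8) true) ∩
      (Ev fun c => MrkC c 2 false x n (Dfree false x m) (zpt x n) (n / 64) (n / 8) false) := rfl
  rw [h3]
  exact (h1.inter h2).mono (Set.subset_univ _)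

theorem G3Q_locFam (x : V) (n m : ℕ) :
    Loc (Ev fun c => Fam c 2 false x n (Dfree false x m)) Set.univ :=
  (GXF 2 false x n (Dfree false x m) (Or.inr ⟨m, fun _ _ hv => hv⟩)).mono (Set.subset_univ _)

/-- Separation at the inner side (from `SEPI`, `LB`, `FA`, `AM`, `Bzero`). -/
theorem G3Q (hS : SEPI_stmt) (hLB : LB_stmt) (hFA : FA_stmt) (hAM : AM_stmt) (hB : Bzero_stmt) :
    G3Q_stmt := by
  obtain ⟨b₀, hb₀, iL, hL⟩ := hLB
  obtain ⟨C, hC, iS, hSS⟩ := hS b₀ hb₀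
  refine ⟨C⁻¹, inv_pos.2 hC, max iL iS, ?_⟩
  intro x L i hx1 hx2 hi hiL
  have hev : Even (x.1 + x.2) := hx1.add hx2
  have hi1 : iL ≤ i := le_trans (le_max_left _ _) hi
  have hi2 : iS ≤ i := le_trans (le_max_right _ _) hi
  have key := hSS 2 (fun _ => (0 : ℝ)) x (Dfree false x (2 ^ L)) (L - 1) (Or.inl rfl) G3Q_prof hev
    (by omega) (by
      have : L - 1 + 1 = L := by omega
      rw [this]
      exact G3Q_ok x _ _ le_rfl) ?_ ?_ (i + 5) (by omega) (by omega)
  · have e1 : i + 5 - 1 = i + 4 := by omega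
    rw [e1, G3Q_Q hB (G3Q_locStd x _ _), G3Q_Q hB (G3Q_locFam x _ _)] at key
    have e2 : (Ev fun c => Fam c 2 false x (2 ^ (i + 5)) (Dfree false x (2 ^ L))) =
        Ev fun c => two c x (2 ^ (i + 5)) (2 ^ L) := by
      refine Set.ext (fun b => ?_)
      have h1 := (hFA (col b) 2 x (2 ^ (i + 5)) (2 ^ L) (Or.inl rfl) hev Nat.one_le_two_pow
        (Nat.pow_lt_pow_right (by norm_num) (by omega))).2
      show Fam (col b) 2 false x (2 ^ (i + 5)) (Dfree false x (2 ^ L)) ↔ _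
      rw [h1]
      rfl
    rw [e2] at key
    rw [inv_mul_le_iff₀ hC]
    exact key
  · intro c k hk1 hk2 h
    have h1 : (1 : ℕ) ≤ 2 ^ k := Nat.one_le_two_pow
    have h2 : (1 : ℕ) ≤ 2 ^ (k + 1) := Nat.one_le_two_pow
    have h3 : 2 ^ k < 2 ^ L := Nat.pow_lt_pow_right (by norm_num) (by omega)
    have h4 : 2 ^ (k + 1) < 2 ^ L := Nat.pow_lt_pow_right (by norm_num) (by omega)
    have h5 : 2 ^ k ≤ 2 ^ (k + 1) := Nat.pow_le_pow_right (by norm_num) (by omega)
    rw [(hFA c 2 x (2 ^ k) (2 ^ L) (Or.inl rfl) hev h1 h3).2] at h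
    rw [(hFA c 2 x (2 ^ (k + 1)) (2 ^ L) (Or.inl rfl) hev h2 h4).2]
    exact hAM c 2 x _ _ _ _ (Or.inl rfl) h5 h4.le le_rfl h
  · have h1 := (hL 2 (fun _ => (0 : ℝ)) x (L - 2) (Or.inl rfl) G3Q_prof hev (by omega)).2.2
    have e1 : L - 2 + 2 = L := by omega
    have e2 : L - 1 - 1 = L - 2 := by omega
    rw [e1] at h1
    rw [e2]
    exact h1

end DP
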