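import Pool.Agent.helper3.DP.SpecG2
import Pool.Agent.helper96.DP.Basic

/-!
# Module GXS: the switch event is local, monotone, and has positive probability
-/

namespace DP

open MeasureTheory

theorem GXS_full (hGLL : GLL_stmt) (k : Bool) (x : V) (ℓ : ℕ) (T : Finset (ℤ × ℤ)) :
    Loc (Ev fun c => GFull c k x ℓ T)
      {v | ∃ p ∈ T, sd (x.1 + 2 * ℓ * p.1, x.2 + 2 * ℓ * p.2) v < 3 * ℓ} ∧
    Mon k (Ev fun c => GFull c k x ℓ T) := by
  classical
  induction T using Finset.induction_on with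
  | empty =>
    have h : (Ev fun c => GFull c k x ℓ ∅) = Set.univ := by
      refine Set.eq_univ_of_forall (fun b g hg => ?_)
      exact absurd hg (Finset.notMem_empty g)
    rw [h]
    exact ⟨Loc.univ _, Mon.univ k⟩
  | insert a T ha ih =>
    have h : (Ev fun c => GFull c k x ℓ (insert a T)) =
        (Ev fun c => ∃ S, Loop c k (x.1 + 2 * ℓ * a.1, x.2 + 2 * ℓ * a.2) ℓ S) ∩
          (Ev fun c => GFull c k x ℓ T) := by
      refine Set.ext (fun b => ?_)
      constructor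
      · intro h
        exact ⟨h a (Finset.mem_insert_self a T), fun g hg => h g (Finset.mem_insert_of_mem hg)⟩
      · rintro ⟨h1, h2⟩ g hg
        rcases Finset.mem_insert.1 hg with rfl | hg
        · exact h1
        · exact h2 g hg
    rw [h]
    obtain ⟨h1, h2⟩ := hGLL k (x.1 + 2 * ℓ * a.1, x.2 + 2 * ℓ * a.2) ℓ
    refine ⟨(h1.inter ih.1).mono ?_, h2.inter ih.2⟩
    rintro v (hv | ⟨p, hp, hv⟩)
    · exact ⟨a, Finset.mem_insert_self a T, hv.2⟩
    · exact ⟨p, Finset.mem_insert_of_mem hp, hv⟩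

theorem GXS (hGLL : GLL_stmt) (hGFU : GFU_stmt) (hC1 : C1_stmt) (hF : Bfkg_stmt)
    (hB : Bzero_stmt) : GXS_stmt := by
  have hsplit : ∀ (k j : Bool) (x : V) (ℓ : ℕ), (Ev fun c => Sw c k j x ℓ) =
      (Ev fun c => GFull c k x ℓ (swc k j)) ∩
        (Ev fun c => ∃ S, Loop c k (zpt x (256 * ℓ) (kix k)) (4 * ℓ) S) := fun _ _ _ _ => rfl
  refine ⟨?_, ?_⟩
  · intro k j x ℓ
    rw [hsplit]
    obtain ⟨h1, h2⟩ := GXS_full hGLL k x ℓ (swc k j)
    obtain ⟨h3, h4⟩ := hGLL k (zpt x (256 * ℓ) (kix k)) (4 * ℓ)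
    refine ⟨(h1.inter h3).mono ?_, h2.inter h4⟩
    rintro v (hv | hv)
    · exact Or.inl hv
    · refine Or.inr ?_
      have := hv.2
      omega
  · obtain ⟨c₀, hc₀, ℓ₀, hℓ₀, hC⟩ := hC1
    have hP1 : IsProbabilityMeasure P1 := by
      have h : IsProbabilityMeasure (PMF.uniformOfFintype Bool).toMeasure := inferInstance
      unfold P1
      infer_instance
    have hc1 : c₀ ≤ 1 := le_trans (hC true 0 ℓ₀ le_rfl) measureReal_le_one
    set N := (swc true true).card + (swc true false).card + (swc false true).card +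
      (swc false false).card with hN
    have hcard : ∀ k j, (swc k j).card ≤ N := by
      intro k j
      cases k <;> cases j <;> omega
    refine ⟨c₀ ^ N * c₀, by positivity, ℓ₀, ?_⟩
    intro k j x ℓ hℓ
    obtain ⟨h1, h2⟩ := GXS_full hGLL k x ℓ (swc k j)
    obtain ⟨h3, h4⟩ := hGLL k (zpt x (256 * ℓ) (kix k)) (4 * ℓ)
    have e1 : c₀ ^ (swc k j).card ≤ Pr (Ev fun c => GFull c k x ℓ (swc k j)) :=
      hGFU c₀ ℓ hc₀.le (fun k g => hC k g ℓ hℓ) k x _
    have e2 : c₀ ≤ Pr (Ev fun c => ∃ S, Loop c k (zpt x (256 * ℓ) (kix k)) (4 * ℓ) S) :=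
      hC k _ _ (by omega)
    have e3 := hF (fun _ => (0 : ℝ)) k _ _ Set.univ (h1.mono (Set.subset_univ _))
      (h3.mono (Set.subset_univ _)) h2 h4
    have hq : ∀ F : Set (V → Bool), Loc F Set.univ → Q (fun _ => (0 : ℝ)) F F = Pr F := by
      intro F hF'
      rw [hB (fun _ => (0 : ℝ)) F F Set.univ hF' hF' (fun _ _ => rfl), Set.inter_self]
    rw [hq _ (h1.mono (Set.subset_univ _)), hq _ (h3.mono (Set.subset_univ _)),
      hq _ ((h1.inter h3).mono (Set.subset_univ _))] at e3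
    rw [hsplit]
    refine le_trans ?_ e3
    have e4 : c₀ ^ N ≤ c₀ ^ (swc k j).card := pow_le_pow_of_le_one hc₀.le hc1 (hcard k j)
    exact mul_le_mul (e4.trans e1) e2 hc₀.le (measureReal_nonneg)

end DP
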